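import Pool.Agent.H81.NCH.Stmts
import Pool.Agent.H81.NCH.Base

/-!
# NCH: CLP, a living cut with cores on both sides of a junction
-/

set_option autoImplicit false

namespace Pool.Agent.H81.NCH

namespace CLP

variable {h m : ℕ}

theorem NH_ge (h m e : ℕ) : NN h * (4 * m) ≤ NH h m e := by
  unfold NH HH
  apply Nat.mul_le_mul_left
  exact Nat.le_mul_of_pos_left _ (by positivity)

theorem NH_ge16 {e : ℕ} (he : e < h) : NN h * (16 * m) ≤ NH h m e := by
  unfold NH HH
  apply Nat.mul_le_mul_left
  have h1 : 4 ≤ 4 ^ (h - e) := by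
    calc 4 = 4 ^ 1 := by norm_num
      _ ≤ 4 ^ (h - e) := Nat.pow_le_pow_right (by norm_num) (by omega)
  calc 16 * m = 4 * (4 * m) := by ring
    _ ≤ 4 ^ (h - e) * (4 * m) := Nat.mul_le_mul_right _ h1

theorem not_post_zero {r : ℕ → ℕ → ℕ} (hr : RB m r) {e i t : ℕ} (h0 : idx h m e i t = 0) :
    ¬ Post h m r e i t := by
  unfold Post
  rw [h0]
  have h1 := (hr e i).1
  have h2 := NN_pos h
  have h3 : 0 < NN h * r e i := Nat.mul_pos h2 (by omega)
  omega

theorem NNr_le {r : ℕ → ℕ → ℕ} (hr : RB m r) (e i : ℕ) : NN h * r e i ≤ NN h * m :=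
  Nat.mul_le_mul_left _ (hr e i).2

theorem post_core {r : ℕ → ℕ → ℕ} (hr : RB m r) {e i t : ℕ} (he : 1 ≤ e)
    (h1 : cs h m e i ≤ t) (h2 : t ≤ ce h m e i) : Post h m r e i t := by
  unfold Post
  rw [idx_core he h1 h2, Wd_eq]
  have h3 := NNr_le (h := h) hr e i
  have h4 := NH_ge h m e
  have h5 : NN h * (4 * m) = 4 * (NN h * m) := by ring
  omega

theorem bas_child {e x : ℕ} (r : ℕ → ℕ → ℕ) (he : 1 ≤ e) : bas h m r (e + 1) x =
    bas h m r e (x / 2) + sgn e (x / 2) *
      (kap h m e (x / 2) (r e (x / 2)) (Wd h m (h - e)) : ℤ) := by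
  unfold bas
  rw [Finset.sum_Ico_succ_top he]
  congr 1
  · apply Finset.sum_congr rfl
    intro D hD
    rw [Finset.mem_Ico] at hD
    have h1 : x / 2 ^ (e + 1 - D) = x / 2 / 2 ^ (e - D) := by
      rw [Nat.div_div_eq_div_mul]
      congr 1
      have : e + 1 - D = (e - D) + 1 := by omega
      rw [this, pow_succ]
      ring
    rw [h1]
  · have h1 : e + 1 - e = 1 := by omega
    rw [h1, pow_one]

theorem lam_mem (h m t : ℕ) : lam h m t = 0 ∨ lam h m t = 1 := by
  unfold lam
  split_ifs <;> simp

theorem sgn_abs (e i : ℕ) : |sgn e i| = 1 := by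
  unfold sgn
  split_ifs <;> simp [abs_pow]

theorem pow_big (h : ℕ) : (h : ℤ) + 11 < 22 * (NN h : ℤ) := by
  have h1 : h < 2 ^ h := Nat.lt_two_pow_self
  have h2 : NN h = 8 * 2 ^ h := by
    unfold NN
    rw [pow_add]
    ring
  rw [h2]
  push_cast
  have h3 : (h : ℤ) < 2 ^ h := by exact_mod_cast h1
  have h4 : (1 : ℤ) ≤ 2 ^ h := by exact_mod_cast Nat.one_le_two_pow
  linarith

/-- The levels of a point of the wall of `p` before the slot and of `c` are far apart. -/
theorem far_level (hKPC : KPCStmt) {r : ℕ → ℕ → ℕ} (hm : 1 ≤ m) (hr : RB m r)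
    {e i c t s : ℕ} (he : e < h) (hi : i < 2 ^ e)
    (hc : |phi h m r c - (bas h m r e i + sgn e i *
      (kap h m e i (r e i) (Wd h m (h - e)) : ℤ))| ≤ (NN h : ℤ) * m)
    (ht : phi h m r t = bas h m r e i + sgn e i * (kap h m e i (r e i) s : ℤ))
    (hs : s ≤ NH h m e) (hal : |psi h m r t - psi h m r c| < (KK h : ℤ)) : False := by
  have h1 := (hKPC h m e i (r e i) he.le hi (hr e i).2).2 s hs
  have h2 := NH_ge16 (m := m) he
  have h3 : (NN h : ℤ) * (16 * m) ≤ (NH h m e : ℤ) := by exact_mod_cast h2
  have h4 : 4 * (kap h m e i (r e i) s : ℤ) + 3 * (NH h m e : ℤ) ≤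
      4 * (kap h m e i (r e i) (Wd h m (h - e)) : ℤ) := by exact_mod_cast h1
  have h5 : 12 * ((NN h : ℤ) * m) ≤ |phi h m r t - (bas h m r e i + sgn e i *
      (kap h m e i (r e i) (Wd h m (h - e)) : ℤ))| := by
    rw [ht]
    have h6 : bas h m r e i + sgn e i * (kap h m e i (r e i) s : ℤ) -
        (bas h m r e i + sgn e i * (kap h m e i (r e i) (Wd h m (h - e)) : ℤ)) =
        sgn e i * ((kap h m e i (r e i) s : ℤ) - kap h m e i (r e i) (Wd h m (h - e))) := by ring
    rw [h6, abs_mul, sgn_abs, one_mul]
    rw [le_abs]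
    right
    nlinarith
  have h7 : (1 : ℤ) ≤ m := by exact_mod_cast hm
  have h8 := pow_big h
  have h9 : (NN h : ℤ) ≤ (NN h : ℤ) * m := by
    have : (0 : ℤ) ≤ NN h := by positivity
    nlinarith
  have h10 : 11 * ((NN h : ℤ) * m) ≤ |phi h m r t - phi h m r c| := by
    have h11 := abs_sub_le (phi h m r t) (phi h m r c) (bas h m r e i + sgn e i *
      (kap h m e i (r e i) (Wd h m (h - e)) : ℤ))
    linarith
  have h12 : 2 * |phi h m r t - phi h m r c| ≤ (KK h : ℤ) + 1 := by
    have h13 : 2 * |phi h m r t - phi h m r c| = |2 * (phi h m r t - phi h m r c)| := by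
      rw [abs_mul]
      norm_num
    rw [h13]
    have h14 : 2 * (phi h m r t - phi h m r c) =
        (psi h m r t - psi h m r c) - (lam h m t - lam h m c) := by
      unfold psi
      ring
    rw [h14]
    have h15 := abs_sub (psi h m r t - psi h m r c) (lam h m t - lam h m c)
    have h16 : |lam h m t - lam h m c| ≤ 1 := by
      rcases lam_mem h m t with h17 | h17 <;> rcases lam_mem h m c with h18 | h18 <;>
        rw [h17, h18] <;> norm_num
    linarith
  have h19 : (KK h : ℤ) = h + 10 := by
    unfold KK
    push_cast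
    ring
  rw [h19] at h12
  linarith

end CLP

open CLP in
theorem clp_thm (hKPA : KPAStmt) (hKPC : KPCStmt) (hLVF : LVFStmt) (hLMD : LMDStmt) :
    CLPStmt := by
  intro h m r e i E x E' x' a c b hm hr hi hE hE' hx hx' ha hc1 hc2 hb hbd hal
  have heE : e + 1 ≤ E := hx.1
  have he : e < h := by omega
  have he1 : e + 1 ≤ h := by omega
  have hil : 2 * i < 2 ^ (e + 1) := by rw [pow_succ]; omega
  have hir : 2 * i + 1 < 2 ^ (e + 1) := by rw [pow_succ]; omega
  have hd1 : 2 * i / 2 = i := by omega
  have hd2 : (2 * i + 1) / 2 = i := by omega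
  have nl := core_nested (h := h) (m := m) hx (by omega)
  have nr := core_nested (h := h) (m := m) hx' (by omega)
  have cl := cs_lt_ce (m := m) hE x
  have cr := cs_lt_ce (m := m) hE' x'
  have sl := st_left (h := h) (m := m) e i
  have sr := st_right (h := h) (m := m) e i
  have el := en_left (h := h) (m := m) e i
  have er := en_right (h := h) (m := m) he i
  have sl2 := st_le_cs (h := h) (m := m) (e + 1) (2 * i)
  have sr2 := st_le_cs (h := h) (m := m) (e + 1) (2 * i + 1)
  have el2 := ce_le_en (h := h) (m := m) (e + 1) (2 * i)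
  have er2 := ce_le_en (h := h) (m := m) (e + 1) (2 * i + 1)
  by_cases hn1 : 1 ≤ e ∧ NonConst h m r e i a c b
  · exact Or.inr (Or.inl hn1)
  by_cases hn2 : NonConst h m r (e + 1) (2 * i) a c b
  · exact Or.inr (Or.inr (Or.inl hn2))
  by_cases hn3 : NonConst h m r (e + 1) (2 * i + 1) a c b
  · exact Or.inr (Or.inr (Or.inr hn3))
  left
  unfold NonConst at hn1 hn2 hn3
  rw [not_not] at hn2 hn3
  -- `Post` of the children
  have pla : ¬ Post h m r (e + 1) (2 * i) a ∧ ¬ Post h m r (e + 1) (2 * i) c := by
    have h1 : ¬ Post h m r (e + 1) (2 * i) b := not_post_zero hr (idx_outside (Or.inr (by omega)))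
    rw [← hn2.2] at h1
    exact ⟨fun h2 => h1 (hn2.1.1 h2), h1⟩
  have prb : ¬ Post h m r (e + 1) (2 * i + 1) b ∧ ¬ Post h m r (e + 1) (2 * i + 1) c := by
    have h1 : ¬ Post h m r (e + 1) (2 * i + 1) a :=
      not_post_zero hr (idx_outside (Or.inl (by omega)))
    rw [hn3.1] at h1
    exact ⟨fun h2 => h1 (hn3.2.2 h2), h1⟩
  have ha2 : a < cs h m (e + 1) (2 * i) := by
    by_contra hcon
    exact pla.1 (post_core hr (by omega) (by omega) (by omega))
  have hb2 : ce h m (e + 1) (2 * i + 1) < b := by
    by_contra hcon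
    exact prb.1 (post_core hr (by omega) (by omega) (by omega))
  -- the level and the label of `c`
  have hcc : lam h m c = 1 ∧ (1 ≤ e → |phi h m r c - (bas h m r e i + sgn e i *
      (kap h m e i (r e i) (Wd h m (h - e)) : ℤ))| ≤ (NN h : ℤ) * m) := by
    have h4m := NH_ge h m (e + 1)
    have h4m' : NN h * (4 * m) = 4 * (NN h * m) := by ring
    have gen : ∀ y s : ℕ, y / 2 = i → y < 2 ^ (e + 1) → (∃ side, InWall h m side (e + 1) y c) →
        idx h m (e + 1) y c = s → s ≤ NN h * m → 1 ≤ e →
        |phi h m r c - (bas h m r e i + sgn e i *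
          (kap h m e i (r e i) (Wd h m (h - e)) : ℤ))| ≤ (NN h : ℤ) * m := by
      intro y s hy hy2 hw hidx hs he0
      have h1 := hLVF h m r (e + 1) y c (by omega) he1 hy2 hw
      rw [bas_child r he0, hy, hidx] at h1
      rw [h1]
      have h2 : ∀ A B : ℤ, A + B - A = B := fun A B => by ring
      rw [h2, abs_mul, sgn_abs, one_mul]
      have h3 := ((hKPA h m (e + 1) y he1 hy2).1 (r (e + 1) y) 0 s (by omega)).2
      have h4 : kap h m (e + 1) y (r (e + 1) y) 0 = 0 := by
        unfold kap
        simp
      rw [h4] at h3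
      rw [abs_of_nonneg (by positivity)]
      have h5 : kap h m (e + 1) y (r (e + 1) y) s ≤ NN h * m := by omega
      exact_mod_cast h5
    rcases le_total c (md h m e i) with hcm | hcm
    · -- `c` in the right wall of the left child
      have h1 : ce h m (e + 1) (2 * i) < c := by
        by_contra hcon
        exact pla.2 (post_core hr (by omega) (by omega) (by omega))
      have h2 : idx h m (e + 1) (2 * i) c = en h m (e + 1) (2 * i) - c :=
        idx_right (by omega) h1.le
      have h3 := pla.2
      unfold Post at h3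
      rw [h2] at h3
      have h4 := NNr_le (h := h) hr (e + 1) (2 * i)
      constructor
      · unfold lam
        rw [if_pos]
        rw [(hLMD h m (e + 1) (2 * i) c hm (by omega) he1 hil).2 h1.le (by omega)]
        constructor <;> omega
      · exact gen (2 * i) _ hd1 hil ⟨false, by
          unfold InWall
          simp
          omega⟩ h2 (by omega)
    · -- `c` in the left wall of the right child
      have h1 : c < cs h m (e + 1) (2 * i + 1) := by
        by_contra hcon
        exact prb.2 (post_core hr (by omega) (by omega) (by omega))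
      have h2 : idx h m (e + 1) (2 * i + 1) c = c - st h m (e + 1) (2 * i + 1) :=
        idx_left (by omega) h1.le
      have h3 := prb.2
      unfold Post at h3
      rw [h2] at h3
      have h4 := NNr_le (h := h) hr (e + 1) (2 * i + 1)
      constructor
      · unfold lam
        rw [if_pos]
        rw [(hLMD h m (e + 1) (2 * i + 1) c hm (by omega) he1 hir).1 (by omega) h1.le]
        constructor <;> omega
      · exact gen (2 * i + 1) _ hd2 hir ⟨true, by
          unfold InWall
          simp
          omega⟩ h2 (by omega)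
  obtain ⟨hlc, hcl⟩ := hcc
  -- `Post` of the parent
  have ppar : 1 ≤ e → Post h m r e i a ∧ Post h m r e i b := by
    intro he0
    have h1 : Post h m r e i c := post_core hr he0 (by omega) (by omega)
    have h2 : ¬ ¬ ((Post h m r e i a ↔ Post h m r e i c) ∧ (Post h m r e i c ↔ Post h m r e i b)) :=
      fun h3 => hn1 ⟨he0, h3⟩
    rw [not_not] at h2
    exact ⟨h2.1.2 h1, h2.2.1 h1⟩
  -- the label of `a`
  have hla : lam h m a = 0 := by
    unfold lam
    rw [if_neg]
    rcases le_or_gt (cs h m e i) a with h1 | h1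
    · rw [(hLMD h m (e + 1) (2 * i) a hm (by omega) he1 hil).1 (by omega) ha2.le]
      intro h2
      omega
    · have he0 : 1 ≤ e := by
        by_contra hcon
        have h2 : e = 0 := by omega
        subst h2
        rw [cs_root] at h1
        omega
      have h2 := (ppar he0).1
      have h3 : idx h m e i a = a - st h m e i := idx_left he0 h1.le
      have h4 : st h m e i < a := by
        by_contra hcon
        exact not_post_zero hr (idx_outside (Or.inl (by omega))) h2
      rw [(hLMD h m e i a hm he0 he.le hi).1 h4.le h1.le]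
      intro h5
      have h6 := hLVF h m r e i a he0 he.le hi ⟨true, by
        unfold InWall
        simp
        omega⟩
      exact far_level hKPC hm hr he hi (hcl he0) h6 (by rw [h3]; omega) hal.1
  -- the label of `b`
  have hlb : lam h m b = 0 := by
    unfold lam
    rw [if_neg]
    rcases le_or_gt b (ce h m e i) with h1 | h1
    · rw [(hLMD h m (e + 1) (2 * i + 1) b hm (by omega) he1 hir).2 hb2.le (by omega)]
      intro h2
      omega
    · have he0 : 1 ≤ e := by
        by_contra hcon
        have h2 : e = 0 := by omega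
        subst h2
        rw [ce_root] at h1
        omega
      have h2 := (ppar he0).2
      have h3 : idx h m e i b = en h m e i - b := idx_right he0 h1.le
      have h4 : b < en h m e i := by
        by_contra hcon
        exact not_post_zero hr (idx_outside (Or.inr (by omega))) h2
      rw [(hLMD h m e i b hm he0 he.le hi).2 h1.le h4.le]
      intro h5
      have h6 := hLVF h m r e i b he0 he.le hi ⟨false, by
        unfold InWall
        simp
        omega⟩
      exact far_level hKPC hm hr he hi (hcl he0) h6 (by rw [h3]; omega)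
        (by rw [abs_sub_comm]; exact hal.2)
  unfold Gain
  rw [hla, hlb, hlc]
  norm_num

end Pool.Agent.H81.NCH
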