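import Pool.Agent.H81.NCH.Stmts
import Pool.Agent.H81.NCH.Base

/-!
# NCH: COE, coefficients of the polynomial
-/

set_option autoImplicit false

namespace Pool.Agent.H81.NCH

universe u

namespace COE

/-! ### Segments -/

section seg

variable {n : ℕ}

theorem seg_length (w : ℕ → Fin n) (a k : ℕ) : (seg w a k).length = k := by
  unfold seg FreeMonoid.length
  simp

theorem seg_zero (w : ℕ → Fin n) (a : ℕ) : seg w a 0 = 1 := by
  unfold seg
  simp

theorem seg_one (w : ℕ → Fin n) (a : ℕ) : seg w a 1 = FreeMonoid.of (w a) := by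
  unfold seg
  simp

theorem seg_add (w : ℕ → Fin n) (a p q : ℕ) :
    seg w a (p + q) = seg w a p * seg w (a + p) q := by
  unfold seg
  rw [← FreeMonoid.ofList_append]
  congr 1
  rw [List.range_add, List.map_append, List.map_map]
  congr 1
  apply List.map_congr_left
  intro t _
  simp only [Function.comp_apply]
  rw [Nat.add_assoc]

end seg

/-! ### Homogeneous polynomials and coefficients of products -/

section mul

variable {K : Type u} [Field K] {n : ℕ}

theorem mul_inj_len {a b c d : FreeMonoid (Fin n)} (h : a * b = c * d)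
    (hl : a.length = c.length) : a = c ∧ b = d :=
  List.append_inj h hl

open Classical in
theorem coeff_mul_sum (P Q : NCPoly K (Fin n)) (w : FreeMonoid (Fin n)) :
    (P * Q).coeff w = ∑ b ∈ P.coeff.support, ∑ c ∈ Q.coeff.support,
      if b * c = w then P.coeff b * Q.coeff c else 0 := by
  rw [MonoidAlgebra.coeff_mul]
  rfl

theorem coeff_mul_seg {P Q : NCPoly K (Fin n)} {p : ℕ} (hP : HomogOf P p) (w : ℕ → Fin n)
    (a q : ℕ) : (P * Q).coeff (seg w a (p + q)) =
      P.coeff (seg w a p) * Q.coeff (seg w (a + p) q) := by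
  classical
  rw [coeff_mul_sum, seg_add, Finset.sum_eq_single (seg w a p)]
  · rw [Finset.sum_eq_single (seg w (a + p) q)]
    · rw [if_pos rfl]
    · intro b _ hb
      rw [if_neg]
      intro h1
      exact hb (mul_inj_len h1 rfl).2
    · intro h1
      rw [if_pos rfl, Finsupp.notMem_support_iff.1 h1, mul_zero]
  · intro b hb hne
    apply Finset.sum_eq_zero
    intro c _
    rw [if_neg]
    intro h1
    apply hne
    refine (mul_inj_len h1 ?_).1
    rw [seg_length]
    exact hP b (Finsupp.mem_support_iff.1 hb)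
  · intro h1
    apply Finset.sum_eq_zero
    intro c _
    rw [Finsupp.notMem_support_iff.1 h1, zero_mul, ite_self]

theorem homog_mul {P Q : NCPoly K (Fin n)} {p q : ℕ} (hP : HomogOf P p) (hQ : HomogOf Q q) :
    HomogOf (P * Q) (p + q) := by
  classical
  intro w hw
  rw [coeff_mul_sum] at hw
  obtain ⟨b, hb, h1⟩ := Finset.exists_ne_zero_of_sum_ne_zero hw
  obtain ⟨c, hc, h2⟩ := Finset.exists_ne_zero_of_sum_ne_zero h1
  have h3 : b * c = w := by
    by_contra h4
    rw [if_neg h4] at h2
    exact h2 rfl
  rw [← h3, FreeMonoid.length_mul, hP b (Finsupp.mem_support_iff.1 hb),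
    hQ c (Finsupp.mem_support_iff.1 hc)]

theorem homog_sum {ι : Type} (s : Finset ι) (F : ι → NCPoly K (Fin n)) {p : ℕ}
    (hF : ∀ j ∈ s, HomogOf (F j) p) : HomogOf (∑ j ∈ s, F j) p := by
  intro w hw
  rw [MonoidAlgebra.coeff_sum, Finsupp.finsetSum_apply] at hw
  obtain ⟨j, hj, h1⟩ := Finset.exists_ne_zero_of_sum_ne_zero hw
  exact hF j hj w h1

theorem homog_of (x : Fin n) :
    HomogOf (MonoidAlgebra.single (FreeMonoid.of x) 1 : NCPoly K (Fin n)) 1 := by
  classical
  intro w hw
  rw [MonoidAlgebra.coeff_single, Finsupp.single_apply] at hw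
  have h1 : FreeMonoid.of x = w := by
    by_contra h2
    rw [if_neg h2] at hw
    exact hw rfl
  rw [← h1, FreeMonoid.length_of]

theorem homog_one : HomogOf (1 : NCPoly K (Fin n)) 0 := by
  classical
  intro w hw
  rw [MonoidAlgebra.one_def, MonoidAlgebra.coeff_single, Finsupp.single_apply] at hw
  have h1 : (1 : FreeMonoid (Fin n)) = w := by
    by_contra h2
    rw [if_neg h2] at hw
    exact hw rfl
  rw [← h1, FreeMonoid.length_one]

theorem coeff_of (x : Fin n) (w : ℕ → Fin n) (a : ℕ) :
    (MonoidAlgebra.single (FreeMonoid.of x) 1 : NCPoly K (Fin n)).coeff (seg w a 1) =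
      if w a = x then 1 else 0 := by
  classical
  rw [MonoidAlgebra.coeff_single, Finsupp.single_apply, seg_one]
  by_cases h1 : w a = x
  · rw [if_pos h1, if_pos (by rw [h1])]
  · rw [if_neg h1, if_neg]
    intro h2
    exact h1 (FreeMonoid.of_injective h2).symm

theorem sandwich_homog (x y : Fin n) {P : NCPoly K (Fin n)} {p : ℕ} (hP : HomogOf P p) :
    HomogOf (MonoidAlgebra.single (FreeMonoid.of x) 1 * P *
      MonoidAlgebra.single (FreeMonoid.of y) 1) (p + 2) := by
  have h1 := homog_mul (homog_mul (homog_of (K := K) x) hP) (homog_of (K := K) y)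
  have h2 : 1 + p + 1 = p + 2 := by omega
  rw [h2] at h1
  exact h1

theorem sandwich_coeff (x y : Fin n) {P : NCPoly K (Fin n)} {p : ℕ} (hP : HomogOf P p)
    (w : ℕ → Fin n) (a : ℕ) :
    (MonoidAlgebra.single (FreeMonoid.of x) 1 * P *
      MonoidAlgebra.single (FreeMonoid.of y) 1).coeff (seg w a (p + 2)) =
      if w a = x ∧ w (a + (p + 1)) = y then P.coeff (seg w (a + 1) p) else 0 := by
  have h1 := homog_mul (homog_of (K := K) x) hP
  have h2 : p + 2 = (1 + p) + 1 := by omega
  have h3 : a + (1 + p) = a + (p + 1) := by omega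
  rw [h2, coeff_mul_seg h1, coeff_mul_seg (homog_of (K := K) x), coeff_of, coeff_of, h3]
  by_cases h4 : w a = x <;> by_cases h5 : w (a + (p + 1)) = y <;> simp [h4, h5]

end mul

/-! ### Walls -/

section wall

variable {K : Type u} [Field K] {n : ℕ}

theorem TT_homog {P : NCPoly K (Fin n)} {p : ℕ} (hP : HomogOf P p) : HomogOf (TT P) (p + 2) := by
  unfold TT
  exact homog_sum _ _ fun j _ => sandwich_homog j j hP

theorem TT_coeff {P : NCPoly K (Fin n)} {p : ℕ} (hP : HomogOf P p) (w : ℕ → Fin n) (a : ℕ) :
    (TT P).coeff (seg w a (p + 2)) =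
      if w a = w (a + (p + 1)) then P.coeff (seg w (a + 1) p) else 0 := by
  classical
  unfold TT
  rw [MonoidAlgebra.coeff_sum, Finsupp.finsetSum_apply, Finset.sum_eq_single (w a)]
  · rw [sandwich_coeff _ _ hP]
    by_cases h1 : w a = w (a + (p + 1))
    · rw [if_pos h1, if_pos ⟨rfl, h1.symm⟩]
    · rw [if_neg h1, if_neg (fun h2 => h1 h2.2.symm)]
  · intro b _ hb
    rw [sandwich_coeff _ _ hP, if_neg (fun h2 => hb h2.1.symm)]
  · intro h1
    exact absurd (Finset.mem_univ _) h1

theorem TTi_homog {P : NCPoly K (Fin n)} {p : ℕ} (hP : HomogOf P p) (H : ℕ) :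
    HomogOf (TT^[H] P) (p + 2 * H) := by
  induction H with
  | zero => exact hP
  | succ H ih =>
    rw [Function.iterate_succ_apply']
    exact TT_homog ih

open Classical in
theorem TTi_coeff {P : NCPoly K (Fin n)} {p : ℕ} (hP : HomogOf P p) (w : ℕ → Fin n) (H a : ℕ) :
    (TT^[H] P).coeff (seg w a (p + 2 * H)) =
      if (∀ s < H, w (a + s) = w (a + (p + 2 * H) - 1 - s)) then P.coeff (seg w (a + H) p)
      else 0 := by
  induction H generalizing a with
  | zero =>
    rw [if_pos]
    · rfl
    · intro s hs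
      omega
  | succ H ih =>
    rw [Function.iterate_succ_apply']
    have h1 : p + 2 * (H + 1) = (p + 2 * H) + 2 := by ring
    rw [h1, TT_coeff (TTi_homog hP H), ih]
    have h2 : a + 1 + H = a + (H + 1) := by omega
    rw [h2]
    by_cases h3 : w a = w (a + (p + 2 * H + 1))
    · rw [if_pos h3]
      by_cases h4 : ∀ s < H, w (a + 1 + s) = w (a + 1 + (p + 2 * H) - 1 - s)
      · rw [if_pos h4, if_pos]
        intro s hs
        rcases Nat.eq_zero_or_pos s with h5 | h5
        · subst h5
          have h6 : a + (p + 2 * H + 2) - 1 - 0 = a + (p + 2 * H + 1) := by omega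
          rw [h6]
          exact h3
        · have h6 := h4 (s - 1) (by omega)
          have h7 : a + 1 + (s - 1) = a + s := by omega
          have h8 : a + 1 + (p + 2 * H) - 1 - (s - 1) = a + (p + 2 * H + 2) - 1 - s := by omega
          rw [h7, h8] at h6
          exact h6
      · rw [if_neg h4, if_neg]
        intro h5
        apply h4
        intro s hs
        have h6 := h5 (s + 1) (by omega)
        have h7 : a + 1 + s = a + (s + 1) := by omega
        have h8 : a + 1 + (p + 2 * H) - 1 - s = a + (p + 2 * H + 2) - 1 - (s + 1) := by omega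
        rw [h7, h8]
        exact h6
    · rw [if_neg h3, if_neg]
      intro h5
      apply h3
      have h6 := h5 0 (by omega)
      have h8 : a + (p + 2 * H + 2) - 1 - 0 = a + (p + 2 * H + 1) := by omega
      rw [h8] at h6
      exact h6

/-- the letters of the two walls of an interval agree, except for the slots -/
def WN (w : ℕ → Fin n) (a L H : ℕ) : Prop :=
  ∀ s < 2 * H + 1, s ≠ H → w (a + s) = w (a + L - 1 - s)

theorem Wrap_homog (x y : Fin n) {P : NCPoly K (Fin n)} {p : ℕ} (hP : HomogOf P p) (H : ℕ) :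
    HomogOf (Wrap H x y P) (p + (4 * H + 2)) := by
  have h1 := TTi_homog (sandwich_homog x y (TTi_homog hP H)) H
  have h2 : p + 2 * H + 2 + 2 * H = p + (4 * H + 2) := by ring
  rw [h2] at h1
  exact h1

open Classical in
theorem Wrap_coeff (x y : Fin n) {P : NCPoly K (Fin n)} {p : ℕ} (hP : HomogOf P p) (H : ℕ)
    (w : ℕ → Fin n) (a L : ℕ) (hL : L = p + (4 * H + 2)) :
    (Wrap H x y P).coeff (seg w a L) =
      if WN w a L H ∧ w (a + H) = x ∧ w (a + L - 1 - H) = y then
        P.coeff (seg w (a + (2 * H + 1)) p) else 0 := by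
  unfold Wrap
  have h2 : L = p + 2 * H + 2 + 2 * H := by omega
  have e1 := TTi_coeff (sandwich_homog x y (TTi_homog hP H)) w H a
  rw [← h2, sandwich_coeff _ _ (TTi_homog hP H), TTi_coeff hP] at e1
  rw [e1]
  have h3 : a + H + 1 + H = a + (2 * H + 1) := by omega
  have h4 : a + H + (p + 2 * H + 1) = a + L - 1 - H := by omega
  rw [h3, h4]
  by_cases h5 : WN w a L H ∧ w (a + H) = x ∧ w (a + L - 1 - H) = y
  · rw [if_pos h5]
    obtain ⟨h6, h7, h8⟩ := h5
    rw [if_pos, if_pos ⟨h7, h8⟩, if_pos]
    · intro s hs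
      have h9 := h6 (H + 1 + s) (by omega) (by omega)
      have h10 : a + (H + 1 + s) = a + H + 1 + s := by omega
      have h11 : a + L - 1 - (H + 1 + s) = a + H + 1 + (p + 2 * H) - 1 - s := by omega
      rw [h10, h11] at h9
      exact h9
    · intro s hs
      exact h6 s (by omega) (by omega)
  · rw [if_neg h5]
    by_cases h6 : ∀ s < H, w (a + s) = w (a + L - 1 - s)
    · rw [if_pos h6]
      by_cases h7 : w (a + H) = x ∧ w (a + L - 1 - H) = y
      · rw [if_pos h7, if_neg]
        intro h8
        apply h5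
        refine ⟨?_, h7⟩
        intro s hs hne
        rcases Nat.lt_or_ge s H with h9 | h9
        · exact h6 s h9
        · have h10 := h8 (s - (H + 1)) (by omega)
          have h11 : a + H + 1 + (s - (H + 1)) = a + s := by omega
          have h12 : a + H + 1 + (p + 2 * H) - 1 - (s - (H + 1)) = a + L - 1 - s := by omega
          rw [h11, h12] at h10
          exact h10
      · rw [if_neg h7]
    · rw [if_neg h6]

end wall

/-! ### The polynomial -/

section poly

variable {K : Type u} [Field K] {n : ℕ} [NeZero n]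

/-- the conditions for all nodes strictly inside a node of height `k` whose core starts at `a` -/
def VV (h m : ℕ) {n : ℕ} [NeZero n] (w : ℕ → Fin n) : ℕ → ℕ → Prop
  | 0, _ => True
  | k + 1, a =>
    (WN w a (Ln h m k) (NN h * HH m k) ∧ WN w (a + Ln h m k) (Ln h m k) (NN h * HH m k)) ∧
    (w (a + Ln h m k - 1 - NN h * HH m k) = w (a + Ln h m k + NN h * HH m k) ∧
      (w (a + Ln h m k + NN h * HH m k) : ℕ) < m ^ 2 ∧ w (a + NN h * HH m k) = 0 ∧
      w (a + Ln h m k + Ln h m k - 1 - NN h * HH m k) = 0) ∧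
    VV h m w k (a + Wd h m k) ∧ VV h m w k (a + Ln h m k + Wd h m k)

theorem Ln_form (h m k : ℕ) : Ln h m k = Cr h m k + (4 * (NN h * HH m k) + 2) := by
  rw [Ln_eq]
  unfold Wd
  ring

theorem Sp_homog (h m : ℕ) : ∀ k : ℕ, HomogOf (Sp K h m k : NCPoly K (Fin n)) (Cr h m k) := by
  intro k
  induction k with
  | zero => exact homog_one
  | succ k ih =>
    unfold Sp
    apply homog_sum
    intro j _
    have h1 := homog_mul (Wrap_homog (0 : Fin n) j ih (NN h * HH m k))
      (Wrap_homog j (0 : Fin n) ih (NN h * HH m k))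
    rw [← Ln_form] at h1
    have h2 : Cr h m (k + 1) = Ln h m k + Ln h m k := by
      unfold Cr
      ring
    rw [h2]
    exact h1

open Classical in
theorem Sp_coeff (h m : ℕ) (w : ℕ → Fin n) : ∀ k a : ℕ,
    (Sp K h m k : NCPoly K (Fin n)).coeff (seg w a (Cr h m k)) =
      if VV h m w k a then (1 : K) else 0 := by
  intro k
  induction k with
  | zero =>
    intro a
    have h1 : VV h m w 0 a := trivial
    rw [if_pos h1]
    have h2 : Cr h m 0 = 0 := rfl
    rw [h2, seg_zero]
    exact MonoidAlgebra.coeff_one_one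
  | succ k ih =>
    intro a
    have h2 : Cr h m (k + 1) = Ln h m k + Ln h m k := by
      unfold Cr
      ring
    set L := Ln h m k with hL
    set N := NN h * HH m k with hN
    have hLf : L = Cr h m k + (4 * N + 2) := Ln_form h m k
    have hW : Wd h m k = 2 * N + 1 := rfl
    have hS := Sp_homog (K := K) (n := n) h m k
    rw [h2]
    unfold Sp
    rw [MonoidAlgebra.coeff_sum, Finsupp.finsetSum_apply]
    have hterm : ∀ j : Fin n, (Wrap N 0 j (Sp K h m k) * Wrap N j 0 (Sp K h m k) :
        NCPoly K (Fin n)).coeff (seg w a (L + L)) =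
        (if WN w a L N ∧ w (a + N) = 0 ∧ w (a + L - 1 - N) = j then
          (if VV h m w k (a + Wd h m k) then (1 : K) else 0) else 0) *
        (if WN w (a + L) L N ∧ w (a + L + N) = j ∧ w (a + L + L - 1 - N) = 0 then
          (if VV h m w k (a + L + Wd h m k) then (1 : K) else 0) else 0) := by
      intro j
      have h3 := Wrap_homog (0 : Fin n) j hS N
      rw [← hLf] at h3
      rw [coeff_mul_seg h3, Wrap_coeff _ _ hS N w a L hLf, Wrap_coeff _ _ hS N w (a + L) L hLf,
        ← hW, ih, ih]
    rw [Finset.sum_congr rfl (fun j _ => hterm j)]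
    by_cases hV : VV h m w (k + 1) a
    · rw [if_pos hV]
      obtain ⟨⟨v1, v2⟩, ⟨v3, v4, v5, v6⟩, v7, v8⟩ := hV
      rw [Finset.sum_eq_single (w (a + L + N))]
      · rw [if_pos ⟨v1, v5, v3⟩, if_pos v7, if_pos ⟨v2, rfl, v6⟩, if_pos v8, mul_one]
      · intro b _ hb
        rw [if_neg (fun h3 : WN w (a + L) L N ∧ w (a + L + N) = b ∧
          w (a + L + L - 1 - N) = 0 => hb h3.2.1.symm), mul_zero]
      · intro h3
        exact (h3 (by rw [Finset.mem_filter]; exact ⟨Finset.mem_univ _, v4⟩)).elim
    · rw [if_neg hV]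
      apply Finset.sum_eq_zero
      intro j hj
      rw [Finset.mem_filter] at hj
      by_contra hne
      apply hV
      have h3 := left_ne_zero_of_mul hne
      have h4 := right_ne_zero_of_mul hne
      have h5 : WN w a L N ∧ w (a + N) = 0 ∧ w (a + L - 1 - N) = j := by
        by_contra h6
        rw [if_neg h6] at h3
        exact h3 rfl
      have h6 : WN w (a + L) L N ∧ w (a + L + N) = j ∧ w (a + L + L - 1 - N) = 0 := by
        by_contra h7
        rw [if_neg h7] at h4
        exact h4 rfl
      rw [if_pos h5] at h3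
      rw [if_pos h6] at h4
      have h7 : VV h m w k (a + Wd h m k) := by
        by_contra h8
        rw [if_neg h8] at h3
        exact h3 rfl
      have h8 : VV h m w k (a + L + Wd h m k) := by
        by_contra h9
        rw [if_neg h9] at h4
        exact h4 rfl
      exact ⟨⟨h5.1, h6.1⟩, ⟨by rw [h5.2.2, h6.2.1], by rw [h6.2.1]; exact hj.2, h5.2.1, h6.2.2⟩,
        h7, h8⟩

end poly

/-! ### Translation to the tree -/

section tree

variable {n : ℕ} [NeZero n] {h m : ℕ}

/-- condition for the walls of a node -/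
def CW (h m : ℕ) {n : ℕ} (w : ℕ → Fin n) (e i : ℕ) : Prop :=
  ∀ s < Wd h m (h - e), s ≠ NH h m e → w (st h m e i + s) = w (en h m e i - 1 - s)

/-- condition for a junction -/
def CJ (h m : ℕ) {n : ℕ} [NeZero n] (w : ℕ → Fin n) (e i : ℕ) : Prop :=
  w (en h m (e + 1) (2 * i) - 1 - NH h m (e + 1)) = w (st h m (e + 1) (2 * i + 1) + NH h m (e + 1)) ∧
    (w (st h m (e + 1) (2 * i + 1) + NH h m (e + 1)) : ℕ) < m ^ 2 ∧
    w (st h m (e + 1) (2 * i) + NH h m (e + 1)) = 0 ∧
    w (en h m (e + 1) (2 * i + 1) - 1 - NH h m (e + 1)) = 0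

theorem inside_children {e i e' i' : ℕ} (h1 : Inside e i e' i') (hlt : e < e') :
    Inside (e + 1) (2 * i) e' i' ∨ Inside (e + 1) (2 * i + 1) e' i' := by
  obtain ⟨h1, h2⟩ := h1
  have h3 : e' - e = (e' - (e + 1)) + 1 := by omega
  rw [h3, pow_succ, ← Nat.div_div_eq_div_mul] at h2
  have h4 : i' / 2 ^ (e' - (e + 1)) = 2 * i ∨ i' / 2 ^ (e' - (e + 1)) = 2 * i + 1 := by omega
  rcases h4 with h4 | h4
  · exact Or.inl ⟨by omega, h4⟩
  · exact Or.inr ⟨by omega, h4⟩

theorem inside_child (e i : ℕ) (b : ℕ) (hb : b < 2) : Inside e i (e + 1) (2 * i + b) := by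
  refine ⟨by omega, ?_⟩
  have h1 : e + 1 - e = 1 := by omega
  rw [h1, pow_one]
  omega

theorem VV_iff (w : ℕ → Fin n) : ∀ k e i : ℕ, e + k = h →
    (VV h m w k (cs h m e i) ↔ ∀ e' i', Inside e i e' i' →
      (e < e' → e' ≤ h → CW h m w e' i') ∧ (e' < h → CJ h m w e' i')) := by
  intro k
  induction k with
  | zero =>
    intro e i he
    constructor
    · intro _ e' i' h1
      have := h1.1
      constructor
      · intro h2 h3
        omega
      · intro h2
        omega
    · intro _
      trivial
  | succ k ih =>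
    intro e i he
    have hk : h - (e + 1) = k := by omega
    have sl := st_left (h := h) (m := m) e i
    have sr := st_right (h := h) (m := m) e i
    have el := en_left (h := h) (m := m) e i
    have er := en_right (h := h) (m := m) (e := e) (by omega) i
    have hmd : md h m e i = cs h m e i + Ln h m k := by rw [md_def, hk]
    have hce : ce h m e i = cs h m e i + Ln h m k + Ln h m k := by
      rw [ce_eq_md (by omega), hmd, hk]
    have hNH : NH h m (e + 1) = NN h * HH m k := by rw [NH_succ_eq, hk]
    have csl : cs h m (e + 1) (2 * i) = cs h m e i + Wd h m k := by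
      rw [cs_eq_st (by omega), sl, hk]
    have csr : cs h m (e + 1) (2 * i + 1) = cs h m e i + Ln h m k + Wd h m k := by
      rw [cs_eq_st (by omega), sr, hmd, hk]
    have ihl := ih (e + 1) (2 * i) (by omega)
    have ihr := ih (e + 1) (2 * i + 1) (by omega)
    rw [csl] at ihl
    rw [csr] at ihr
    have hCWl : CW h m w (e + 1) (2 * i) ↔
        WN w (cs h m e i) (Ln h m k) (NN h * HH m k) := by
      unfold CW WN
      rw [sl, el, hmd, hNH, hk]
      rfl
    have hCWr : CW h m w (e + 1) (2 * i + 1) ↔
        WN w (cs h m e i + Ln h m k) (Ln h m k) (NN h * HH m k) := by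
      unfold CW WN
      rw [sr, er, hmd, hce, hNH, hk]
      rfl
    have hCJ : CJ h m w e i ↔
        (w (cs h m e i + Ln h m k - 1 - NN h * HH m k) =
            w (cs h m e i + Ln h m k + NN h * HH m k) ∧
          (w (cs h m e i + Ln h m k + NN h * HH m k) : ℕ) < m ^ 2 ∧
          w (cs h m e i + NN h * HH m k) = 0 ∧
          w (cs h m e i + Ln h m k + Ln h m k - 1 - NN h * HH m k) = 0) := by
      unfold CJ
      rw [sl, sr, el, er, hmd, hce, hNH]
    unfold VV
    rw [← hCWl, ← hCWr, ← hCJ, ihl, ihr]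
    constructor
    · rintro ⟨⟨v1, v2⟩, v3, v4, v5⟩ e' i' h1
      rcases Nat.lt_or_ge e e' with h2 | h2
      · rcases inside_children h1 h2 with h3 | h3
        · refine ⟨fun _ h5 => ?_, (v4 e' i' h3).2⟩
          rcases Nat.lt_or_ge (e + 1) e' with h6 | h6
          · exact (v4 e' i' h3).1 h6 h5
          · have h7 : e' = e + 1 := by omega
            subst h7
            have h8 := h3.2
            simp at h8
            rw [h8]
            exact v1
        · refine ⟨fun _ h5 => ?_, (v5 e' i' h3).2⟩
          rcases Nat.lt_or_ge (e + 1) e' with h6 | h6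
          · exact (v5 e' i' h3).1 h6 h5
          · have h7 : e' = e + 1 := by omega
            subst h7
            have h8 := h3.2
            simp at h8
            rw [h8]
            exact v2
      · have h3 : e' = e := by
          have := h1.1
          omega
        subst h3
        have h8 := h1.2
        simp at h8
        rw [h8]
        exact ⟨fun h9 => by omega, fun _ => v3⟩
    · intro hall
      refine ⟨⟨?_, ?_⟩, ?_, ?_, ?_⟩
      · exact (hall (e + 1) (2 * i) (inside_child e i 0 (by norm_num))).1 (by omega) (by omega)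
      · exact (hall (e + 1) (2 * i + 1) (inside_child e i 1 (by norm_num))).1 (by omega) (by omega)
      · exact (hall e i (Inside.refl e i)).2 (by omega)
      · intro e' i' h1
        have h2 := hall e' i' ((inside_child e i 0 (by norm_num)).trans h1)
        exact ⟨fun h3 => h2.1 (by omega), h2.2⟩
      · intro e' i' h1
        have h2 := hall e' i' ((inside_child e i 1 (by norm_num)).trans h1)
        exact ⟨fun h3 => h2.1 (by omega), h2.2⟩

theorem VV_valid (w : ℕ → Fin n) : VV h m w h 0 ↔ Valid h m w := by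
  have h1 := VV_iff (h := h) (m := m) w h 0 0 (by omega)
  rw [cs_root] at h1
  rw [h1]
  constructor
  · intro hall
    refine ⟨?_, ?_⟩
    · intro e i he1 he hi
      exact (hall e i (inside_root hi)).1 (by omega) he
    · intro e i he hi
      exact (hall e i (inside_root hi)).2 he
  · rintro ⟨v1, v2⟩ e' i' hins
    have hi : i' < 2 ^ e' := hins.lt_pow (by norm_num)
    exact ⟨fun h2 h3 => v1 e' i' (by omega) h3 hi, fun h2 => v2 e' i' h2 hi⟩

end tree

end COE

open COE in
open Classical in
theorem coe_thm : COEStmt.{u} := by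
  intro K _ h m n _ _ _ _
  refine ⟨Sp_homog h m h, fun w => ?_⟩
  have h1 := Sp_coeff (K := K) h m w h 0
  have h2 : Cr h m h = dd h m := rfl
  rw [h2] at h1
  rw [h1]
  by_cases h3 : VV h m w h 0
  · rw [if_pos h3, if_pos (VV_valid w |>.1 h3)]
  · rw [if_neg h3, if_neg (fun h4 => h3 (VV_valid w |>.2 h4))]

end Pool.Agent.H81.NCH
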