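import Pool.Agent.H81.NCH.Stmts
import Pool.Agent.H81.NCH.Base

/-!
# NCH: SLD, slopes of different walls are different
-/

set_option autoImplicit false

namespace Pool.Agent.H81.NCH

namespace SLD

theorem sgn_abs (e i : ℕ) : |sgn e i| = 1 := by
  unfold sgn
  split_ifs <;> simp [abs_pow]

theorem code_lt {h e i : ℕ} (he : e ≤ h) (hi : i < 2 ^ e) : 2 ^ e + i < 2 ^ (h + 1) := by
  have h1 : 2 ^ e ≤ 2 ^ h := Nat.pow_le_pow_right (by norm_num) he
  rw [pow_succ]
  omega

theorem code_inj {e i e' i' : ℕ} (hi : i < 2 ^ e) (hi' : i' < 2 ^ e')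
    (h1 : 2 ^ e + i = 2 ^ e' + i') : e = e' ∧ i = i' := by
  have key : ∀ a b x y : ℕ, x < 2 ^ a → 2 ^ a + x = 2 ^ b + y → b ≤ a := by
    intro a b x y hx hxy
    by_contra hcon
    have h2 : 2 ^ (a + 1) ≤ 2 ^ b := Nat.pow_le_pow_right (by norm_num) (by omega)
    rw [pow_succ] at h2
    omega
  have h2 := key e e' i i' hi h1
  have h3 := key e' e i' i hi' h1.symm
  have h4 : e = e' := by omega
  subst h4
  exact ⟨rfl, by omega⟩

end SLD

open SLD in
open Classical in
theorem sld_thm : SLDStmt := by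
  intro h side side' e i e' i' P P' he hi he' hi' hne heq
  have hN : (NN h : ℤ) = 4 * 2 ^ (h + 1) := by
    unfold NN
    push_cast
    rw [pow_add, pow_add]
    ring
  have c1 : ((2 : ℤ) ^ e + i) < 2 ^ (h + 1) := by exact_mod_cast code_lt he hi
  have c2 : ((2 : ℤ) ^ e' + i') < 2 ^ (h + 1) := by exact_mod_cast code_lt he' hi'
  have p1 : (0 : ℤ) < 2 ^ e := by positivity
  have p2 : (0 : ℤ) < 2 ^ e' := by positivity
  have i1 : (0 : ℤ) ≤ i := by positivity
  have i2 : (0 : ℤ) ≤ i' := by positivity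
  unfold slp at heq
  rw [hN] at heq
  set T : ℤ := 2 ^ (h + 1) with hT
  have hTpos : 0 < T := by positivity
  set d : ℤ := (if P then 0 else T) with hd
  set d' : ℤ := (if P' then 0 else T) with hd'
  have hd1 : d = 0 ∨ d = T := by
    rw [hd]
    split_ifs <;> simp
  have hd1' : d' = 0 ∨ d' = T := by
    rw [hd']
    split_ifs <;> simp
  set σ : ℤ := (if side = true then 1 else -1) with hσ
  set σ' : ℤ := (if side' = true then 1 else -1) with hσ'
  have a1 : |σ| = 1 := by
    rw [hσ]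
    split_ifs <;> simp
  have a2 : |σ'| = 1 := by
    rw [hσ']
    split_ifs <;> simp
  have m1 : 0 < 4 * T - 2 ^ e - i - d := by
    rcases hd1 with h1 | h1 <;> rw [h1] <;> linarith
  have m2 : 0 < 4 * T - 2 ^ e' - i' - d' := by
    rcases hd1' with h1 | h1 <;> rw [h1] <;> linarith
  have h1 := congrArg abs heq
  simp only [abs_mul, a1, a2, sgn_abs, one_mul] at h1
  rw [abs_of_pos m1, abs_of_pos m2] at h1
  have h2 : (2 : ℤ) ^ e + i = 2 ^ e' + i' := by
    rcases hd1 with h3 | h3 <;> rcases hd1' with h4 | h4 <;> rw [h3, h4] at h1 <;> linarith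
  have h3 : 2 ^ e + i = 2 ^ e' + i' := by exact_mod_cast h2
  obtain ⟨h4, h5⟩ := code_inj hi hi' h3
  subst h4
  subst h5
  have h6 : σ * sgn e i = σ' * sgn e i := by
    have h7 : σ * sgn e i * (4 * T - 2 ^ e - i - d) = σ' * sgn e i * (4 * T - 2 ^ e - i - d) := by
      rw [heq, h1]
    exact mul_right_cancel₀ m1.ne' h7
  have h8 : sgn e i ≠ 0 := by
    intro h9
    have := sgn_abs e i
    rw [h9] at this
    norm_num at this
  have h9 : σ = σ' := mul_right_cancel₀ h8 h6
  have h10 : side ≠ side' := by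
    intro h11
    exact hne (by rw [h11])
  rw [hσ, hσ'] at h9
  cases side <;> cases side' <;> simp at h9 h10

end Pool.Agent.H81.NCH
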